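import Pool.Agent.R489.LMS.Stab

/-!
# Falling factorials of `k (k + 1)` are Legendre multiplier sequences
-/

set_option autoImplicit false

namespace Pool.Agent.Results.MP_c016d9_an

open Polynomial

/-- all complex zeros of the real polynomial `f` are real (and `f ≠ 0`) -/
def RealRooted (f : ℝ[X]) : Prop := ∀ z : ℂ, aeval z f = 0 → z.im = 0

/-- `P k` is the Legendre polynomial of degree `k`, in any normalisation: a solution of degree
exactly `k` of `(1 - x ^ 2) y'' - 2 x y' + k (k + 1) y = 0` -/
def IsLegendreFamily (P : ℕ → ℝ[X]) : Prop :=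
  ∀ k : ℕ, (P k).degree = k ∧
    (1 - X ^ 2) * derivative (derivative (P k)) - 2 * X * derivative (P k) +
      C ((k : ℝ) * (k + 1)) * P k = 0

/-- `γ` is a Legendre multiplier sequence: the operator `G` with `G (P k) = γ k * P k` maps
polynomials with only real zeros to `0` or to polynomials with only real zeros -/
def IsLegendreMultiplier (γ : ℕ → ℝ) : Prop :=
  ∀ P : ℕ → ℝ[X], IsLegendreFamily P → ∀ G : ℝ[X] →ₗ[ℝ] ℝ[X],
    (∀ k, G (P k) = C (γ k) * P k) → ∀ p : ℝ[X], RealRooted p → G p = 0 ∨ RealRooted (G p)

open Pool.Agent.R489.LMS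

theorem FallingFactorials.lop_family {P : ℕ → ℝ[X]} (hP : IsLegendreFamily P) (k : ℕ) :
    Lop 1 0 (P k) = C ((k : ℝ) * (k + 1)) * P k := by
  have h := (hP k).2
  rw [Lop_apply]
  simp only [mul_one, map_zero, zero_mul, add_zero, map_ofNat]
  linear_combination (-1 : ℝ[X]) * h

theorem FallingFactorials.stab_of_real {p : ℝ[X]} (hp : RealRooted p) :
    Stab (p.map (algebraMap ℝ ℂ)) := by
  intro z hz h
  rw [eval_map_algebraMap] at h
  have := hp z h
  linarith

theorem FallingFactorials.real_of_stab {p : ℝ[X]} (hp : Stab (p.map (algebraMap ℝ ℂ))) :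
    RealRooted p := by
  intro z hz
  rcases lt_trichotomy z.im 0 with h | h | h
  · exfalso
    apply hp ((starRingEnd ℂ) z) (by simpa using h)
    rw [eval_map_algebraMap, aeval_conj, hz, map_zero]
  · exact h
  · exact absurd (by rw [eval_map_algebraMap]; exact hz) (hp z h)

/-- Rodrigues' formula gives a Legendre family -/
theorem FallingFactorials.rodrigues :
    IsLegendreFamily (fun k => derivative^[k] ((X ^ 2 - 1) ^ k)) := by
  have iter : ∀ (s : ℕ) (a c : ℝ) (f : ℝ[X]),
      derivative^[s] (Lop a c f) = Lop (a + s) (c + s * (2 * a + s - 1)) (derivative^[s] f) := by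
    intro s a c f
    induction s with
    | zero => simp
    | succ s ih =>
      rw [Function.iterate_succ_apply', ih, der_Lop, Function.iterate_succ_apply']
      congr 2
      · push_cast; ring
      · push_cast; ring
  intro k
  constructor
  · simp only
    have hnd : ((X ^ 2 - 1 : ℝ[X]) ^ k).natDegree = 2 * k := by
      rw [natDegree_pow]
      have : (X ^ 2 - 1 : ℝ[X]).natDegree = 2 := by
        have : (X ^ 2 - 1 : ℝ[X]) = X ^ 2 - C 1 := by simp
        rw [this, natDegree_X_pow_sub_C]
      rw [this]; ring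
    have hmon : ((X ^ 2 - 1 : ℝ[X]) ^ k).Monic := by
      apply Monic.pow
      have : (X ^ 2 - 1 : ℝ[X]) = X ^ 2 - C 1 := by simp
      rw [this]
      exact monic_X_pow_sub_C 1 (by norm_num)
    have hcoef : (derivative^[k] ((X ^ 2 - 1 : ℝ[X]) ^ k)).coeff k ≠ 0 := by
      rw [coeff_iterate_derivative]
      have h1 : ((X ^ 2 - 1 : ℝ[X]) ^ k).coeff (k + k) = 1 := by
        have := hmon.coeff_natDegree
        rw [hnd] at this
        rw [← two_mul]; exact this
      rw [h1, nsmul_eq_mul, mul_one]
      have : 0 < (k + k).descFactorial k := Nat.descFactorial_pos.2 (by omega)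
      positivity
    apply le_antisymm
    · have := natDegree_iterate_derivative ((X ^ 2 - 1 : ℝ[X]) ^ k) k
      rw [hnd] at this
      refine degree_le_of_natDegree_le ?_
      omega
    · exact le_degree_of_ne_zero hcoef
  · simp only
    set W : ℝ[X] := (X ^ 2 - 1) ^ k with hW
    have h1 : (X ^ 2 - 1) * derivative W = 2 * (k : ℝ[X]) * X * W := by
      rw [hW, derivative_pow]
      rcases Nat.eq_zero_or_pos k with h0 | h0
      · subst h0; simp
      · have e : (X ^ 2 - 1 : ℝ[X]) ^ k = (X ^ 2 - 1) ^ (k - 1) * (X ^ 2 - 1) := by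
          rw [← pow_succ]; congr 1; omega
        rw [e]
        simp only [derivative_sub, derivative_X_pow, derivative_one, map_natCast,
          Nat.cast_ofNat, map_ofNat]
        ring
    have h2 : Lop (1 - (k : ℝ)) (-2 * k) W = 0 := by
      have h3 := congrArg derivative h1
      simp only [derivative_mul, derivative_sub, derivative_X_pow, derivative_one,
        derivative_X, derivative_natCast, derivative_ofNat, Nat.cast_ofNat, map_ofNat] at h3
      rw [Lop_apply]
      simp only [map_mul, map_sub, map_neg, map_one, map_natCast, map_ofNat]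
      linear_combination h3
    have h4 := iter k (1 - (k : ℝ)) (-2 * k) W
    rw [h2, iterate_derivative_zero] at h4
    have e1 : 1 - (k : ℝ) + k = 1 := by ring
    have e2 : -2 * (k : ℝ) + k * (2 * (1 - (k : ℝ)) + k - 1) = - (k * (k + 1)) := by ring
    rw [e1, e2, Lop_apply] at h4
    simp only [mul_one, map_neg, map_ofNat] at h4
    linear_combination h4

/-- Legendre families exist, and for every `n ≥ 1` the sequence
`m (m - 1) ... (m - n + 1)`, `m = k (k + 1)`, is a Legendre multiplier sequence. -/
theorem FallingFactorials.result :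
    (∃ P : ℕ → ℝ[X], IsLegendreFamily P) ∧
    ∀ n : ℕ, 1 ≤ n →
      IsLegendreMultiplier (fun k => ∏ j ∈ Finset.range n, ((k : ℝ) * (k + 1) - j)) := by
  refine ⟨⟨_, FallingFactorials.rodrigues⟩, ?_⟩
  intro n _ P hP G hG p hp
  have hGL : G = prodL n := by
    let S : Polynomial.Sequence ℝ := ⟨P, fun k => (hP k).1⟩
    have hspan : Submodule.span ℝ (Set.range P) = ⊤ :=
      S.span (fun i => by
        have : S i ≠ 0 := S.ne_zero i
        exact isUnit_iff_ne_zero.2 (leadingCoeff_ne_zero.2 this))
    refine LinearMap.ext_on hspan ?_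
    rintro _ ⟨k, rfl⟩
    rw [hG, prodL_eig n (FallingFactorials.lop_family hP k)]
  subst hGL
  have h1 : SZ (prodL n (p.map (algebraMap ℝ ℂ))) :=
    SZ.prodL (Or.inr (FallingFactorials.stab_of_real hp)) n
  rw [← map_prodL] at h1
  rcases h1 with h1 | h1
  · left
    exact (Polynomial.map_eq_zero_iff (algebraMap ℝ ℂ).injective).1 h1
  · right
    exact FallingFactorials.real_of_stab h1

end Pool.Agent.Results.MP_c016d9_an
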